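import Pool.Agent.R460.GS.Appl
import Pool.Agent.R460.GR.Conv

/-!
# Goldbach representations in primorial intervals: almost all even integers in ALL residue classes, in particular
almost all multiples, of the moduli up to `x ^ (7 / 10 - ρ)` which are not divisible by one of few large integers

There is a set `D` of at most `(log x) ^ c` integers, all of them larger than any given power of `log x`, such that
for every modulus `q ≤ x ^ (7 / 10 - ρ)` which is not divisible by a member of `D`, and EVERY residue class `a`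
modulo `q` (for instance `a = 0`: the multiples of `q`), all but at most `x / (q (log x)^A)` of the even integers
`m ≤ x`, `m ≡ a (mod q)`, satisfy the assertion of the problem, and the number of the representations required
there is at least `1 / 21` of the expected number.

Definition used (in `Pool.Agent.H560R3.GB`): `sing m = 2 C₂ ∏_{p ∣ m, p > 2} (p - 1) / (p - 2)`, the singular series,
where `C₂ = ∏_{p > 2} (1 - 1 / (p - 1) ^ 2)` is the twin prime constant.

Proof (`R460/GS`, `R460/GR`): see the hand-in ModuliUpToSevenTenths of the problem on the multiples of `q`; the bad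
characters are induced by at most `(log N) ^ c` primitive characters, whose conductors (divided by small factors)
are the members of `D`.
-/

set_option autoImplicit false

namespace Pool.Agent.Results.MP_484fb8_nt.AllClassesRegularModuli

open Finset
open Pool.Agent.H560R3.GB (sing)

/-- `#(n)`: the product of the first `n` primes. -/
noncomputable def P (n : ℕ) : ℕ := ∏ i ∈ range n, Nat.nth Nat.Prime i

/-- The number of primes `p` in the `n`-th primorial interval such that `m - p` is a prime which lies in the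
`n`-th or in the `n + 1`-st primorial interval. -/
noncomputable def R (n m : ℕ) : ℕ :=
  ((Icc (P (n - 1) + 1) (P n + 1)).filter
    (fun p => p.Prime ∧ (m - p).Prime ∧ P (n - 1) + 1 ≤ m - p ∧ m - p ≤ P (n + 1) + 1)).card

/-- If `m` belongs to the `n + 1`-st primorial interval (`n ≥ 1`), then `m = p + q` where `p` is a prime in the
`n`-th primorial interval and `q` is a prime in the `n`-th or in the `n + 1`-st one; moreover, the number of these
representations is at least `1 / 21` of the expected number `sing m * #(n) / log ^ 2 m`. -/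
def Holds (m : ℕ) : Prop :=
  ∀ n : ℕ, 1 ≤ n → P n + 1 ≤ m → m ≤ P (n + 1) + 1 →
    (∃ p q : ℕ, p.Prime ∧ q.Prime ∧ m = p + q ∧ P (n - 1) + 1 ≤ p ∧ p ≤ P n + 1 ∧ P (n - 1) + 1 ≤ q ∧ q ≤ P (n + 1) + 1) ∧
    1 / 21 * (sing m * P n / Real.log m ^ 2) ≤ R n m

/-- The even integers `0 < m ≤ x` with `m ≡ a (mod q)` for which `Holds m` is false. -/
def exceptional (x : ℝ) (q : ℕ) (a : ℤ) : Set ℕ :=
  {m : ℕ | 0 < m ∧ (m : ℝ) ≤ x ∧ 2 ∣ m ∧ (m : ℤ) ≡ a [ZMOD q] ∧ ¬ Holds m}

theorem holds_of : ∃ m₀ : ℕ, ∀ m : ℕ, m₀ ≤ m → 2 ∣ m → Pool.Agent.R460.GS.WinL 2 m → Holds m := by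
  obtain ⟨m₀, h0⟩ := Pool.Agent.R460.GS.reps_low
  refine ⟨m₀ + 3, ?_⟩
  intro m hm _ hwin n hn h2 h3
  have h4 := h0 m (by omega) hwin n hn h2 h3
  have hm0 : (3 : ℝ) ≤ m := by exact_mod_cast (by omega : 3 ≤ m)
  have hlog : 0 < Real.log m := Real.log_pos (by linarith)
  have hs := Pool.Agent.R460.GS.one_le_sing m
  have hP : (0 : ℝ) < P n := by exact_mod_cast Pool.Agent.W93.PG.PR_pos n
  have hmain : 0 < sing m * P n / Real.log m ^ 2 := by positivity
  have hR : R n m = Pool.Agent.W93.PG.reps n m := rfl
  have hPR : Pool.Agent.W93.PG.PR n = P n := rfl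
  rw [← hR, hPR] at h4
  refine ⟨?_, h4⟩
  have h7 : (0 : ℝ) < R n m := by linarith
  have h8 : 0 < R n m := by exact_mod_cast h7
  unfold R at h8
  rw [card_pos] at h8
  obtain ⟨p, hp⟩ := h8
  rw [mem_filter, mem_Icc] at hp
  obtain ⟨⟨p1, p2⟩, p3, p4, p5, p6⟩ := hp
  exact ⟨p, m - p, p3, p4, by have := p4.pos; omega, p1, p2, p5, p6⟩

/-- For all `ρ > 0` and `A` there is `c` such that for all `B` and all sufficiently large real `x` there is a finite
set `D` of at most `(log x) ^ c` integers, all of them larger than `(log x) ^ B`, such that for every integer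
`1 ≤ q ≤ x ^ (7 / 10 - ρ)` which is not divisible by a member of `D` and for EVERY integer `a`, all but at most
`x / (q (log x)^A)` of the even integers `0 < m ≤ x`, `m ≡ a (mod q)`, satisfy the assertion of the problem, and the
number of the representations required there is at least `1 / 21` of the expected number. -/
theorem result (ρ : ℝ) (hρ : 0 < ρ) (A : ℕ) :
    ∃ c : ℕ, ∀ B : ℕ, ∃ x₀ : ℝ, ∀ x : ℝ, x₀ ≤ x → ∃ D : Finset ℕ, (D.card : ℝ) ≤ Real.log x ^ c ∧
      (∀ d ∈ D, Real.log x ^ B < (d : ℝ)) ∧
      ∀ q : ℕ, 1 ≤ q → (q : ℝ) ≤ x ^ (7 / 10 - ρ) → (∀ d ∈ D, ¬ d ∣ q) → ∀ a : ℤ,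
        (exceptional x q a).Finite ∧ ((exceptional x q a).ncard : ℝ) ≤ x / (q * Real.log x ^ A) :=
  Pool.Agent.R460.GR.class_few_reg Holds 2 holds_of ρ hρ A

end Pool.Agent.Results.MP_484fb8_nt.AllClassesRegularModuli
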